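import Pool.Agent.U797.NL.Spec

/-! Project NL, package KILL (helper416): centre colouring and double counting. -/

set_option autoImplicit false

namespace Pool.Agent.U416.NL

open Finset
open scoped Classical
open Pool.Agent.U797.LV (nb mem_nb)
open Pool.Agent.U797.NL

/-- indicator -/
noncomputable def ind (p : Prop) : ℝ := if p then 1 else 0

lemma ind_nonneg (p : Prop) : 0 ≤ ind p := by unfold ind; split_ifs <;> norm_num

lemma ind_true {p : Prop} (h : p) : ind p = 1 := if_pos h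

lemma ind_false {p : Prop} (h : ¬ p) : ind p = 0 := if_neg h

lemma ind_and (p q : Prop) : ind (p ∧ q) = ind p * ind q := by
  unfold ind
  by_cases hp : p <;> by_cases hq : q <;> simp [hp, hq]

lemma card_ind {α : Type} (s : Finset α) (p : α → Prop) [DecidablePred p] :
    ((s.filter p).card : ℝ) = ∑ x ∈ s, ind (p x) := by
  rw [Finset.card_filter]
  push_cast
  refine Finset.sum_congr rfl fun x _ => ?_
  by_cases h : p x <;> simp [ind, h]

lemma sum_filter_ind {α : Type} (s : Finset α) (p : α → Prop) [DecidablePred p] (g : α → ℝ) :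
    ∑ x ∈ s.filter p, g x = ∑ x ∈ s, ind (p x) * g x := by
  rw [Finset.sum_filter]
  refine Finset.sum_congr rfl fun x _ => ?_
  by_cases h : p x <;> simp [ind, h]

lemma card_mem {V : Type} [Fintype V] (s : Finset V) : (s.card : ℝ) = ∑ y, ind (y ∈ s) := by
  have h : (univ.filter (fun y => y ∈ s)) = s := by ext; simp
  conv_lhs => rw [← h]
  exact card_ind _ _

lemma sum_mem {V : Type} [Fintype V] (s : Finset V) (h : V → ℝ) :
    ∑ y, ind (y ∈ s) * h y = ∑ y ∈ s, h y := by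
  rw [← sum_filter_ind univ (fun y => y ∈ s) h]
  congr 1
  ext
  simp

theorem t_KILL : S_COL → S_KILL := by
  intro hcol V _ G D t lam eta lam0 del L E R hD ht hl hl1 hdel heta hl0 hsum hdeg hE hEi hR hLR hEs
    hnbL
  obtain ⟨n, hn⟩ : ∃ n : ℝ, n = (Fintype.card V : ℝ) := ⟨_, rfl⟩
  have hn0 : 0 ≤ n := by rw [hn]; positivity
  rw [← hn] at hEs hnbL ⊢
  have hD0 : 0 < D := by linarith
  have ht0 : 0 < t := by linarith
  obtain ⟨S, hS⟩ : ∃ S : V → Finset V, ∀ y, S y = univ.filter (fun a => y ∈ E a) := ⟨_, fun _ => rfl⟩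
  obtain ⟨Q, hQ⟩ : ∃ Q : V → Finset V, ∀ y, Q y = univ.filter (fun a => y ∈ R a ∧ y ∉ E a) :=
    ⟨_, fun _ => rfl⟩
  have mS : ∀ a y, a ∈ S y ↔ y ∈ E a := fun a y => by rw [hS]; simp
  have mQ : ∀ a y, a ∈ Q y ↔ (y ∈ R a ∧ y ∉ E a) := fun a y => by rw [hQ]; simp
  have hSD : ∀ y, ((S y).card : ℝ) ≤ D := by
    intro y
    refine le_trans ?_ (hdeg y)
    have : S y ⊆ nb G y := by
      intro a ha
      have h1 := hE a ((mS a y).1 ha)
      rw [mem_nb] at h1 ⊢
      exact h1.symm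
    exact_mod_cast card_le_card this
  have hSsum : ∑ y, ((S y).card : ℝ) = ∑ a, ((E a).card : ℝ) := by
    have h1 : ∀ y, ((S y).card : ℝ) = ∑ a, ind (y ∈ E a) := fun y => by rw [hS, card_ind]
    have h2 : ∀ a, ((E a).card : ℝ) = ∑ y, ind (y ∈ E a) := fun a => card_mem _
    simp_rw [h1, h2]
    rw [Finset.sum_comm]
  have hQsum : ∑ y, ((Q y).card : ℝ) ≤ n * (t * D) := by
    have h1 : ∀ y, ((Q y).card : ℝ) = ∑ a, ind (y ∈ R a ∧ y ∉ E a) := fun y => by rw [hQ, card_ind]
    simp_rw [h1]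
    rw [Finset.sum_comm]
    have h2 : ∀ a, ∑ y, ind (y ∈ R a ∧ y ∉ E a) ≤ t * D := by
      intro a
      rw [← card_ind]
      refine le_trans ?_ (hR a)
      have : (univ.filter (fun y => y ∈ R a ∧ y ∉ E a)) ⊆ R a := fun y hy => (mem_filter.1 hy).2.1
      exact_mod_cast card_le_card this
    calc ∑ a, ∑ y, ind (y ∈ R a ∧ y ∉ E a) ≤ ∑ a : V, t * D := Finset.sum_le_sum fun a _ => h2 a
      _ = n * (t * D) := by rw [Finset.sum_const, card_univ, nsmul_eq_mul, hn]
  obtain ⟨Y, hY⟩ : ∃ Y : Finset V, Y = univ.filter (fun y => lam * ((Q y).card : ℝ) ≤ 2 * t * D) :=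
    ⟨_, rfl⟩
  have mY : ∀ y, y ∈ Y ↔ lam * ((Q y).card : ℝ) ≤ 2 * t * D := fun y => by rw [hY]; simp
  obtain ⟨σ, hσd⟩ : ∃ σ : ℝ, σ = ∑ y ∈ Y, ((S y).card : ℝ) := ⟨_, rfl⟩
  have hσ : lam * n * D / 2 ≤ σ := by
    have h1 : ∑ y, ((S y).card : ℝ) ≤ ∑ y, (ind (y ∈ Y) * ((S y).card : ℝ) +
        lam / (2 * t) * ((Q y).card : ℝ)) := by
      refine Finset.sum_le_sum fun y _ => ?_
      by_cases hy : y ∈ Y
      · rw [ind_true hy, one_mul]
        have : 0 ≤ lam / (2 * t) * ((Q y).card : ℝ) := by positivity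
        linarith
      · rw [ind_false hy, zero_mul, zero_add]
        have h2 : 2 * t * D < lam * ((Q y).card : ℝ) := by
          rw [mY] at hy
          exact not_le.1 hy
        have h3 : D ≤ lam / (2 * t) * ((Q y).card : ℝ) := by
          rw [div_mul_eq_mul_div, le_div_iff₀ (by positivity)]
          linarith
        exact (hSD y).trans h3
    rw [Finset.sum_add_distrib, ← Finset.mul_sum, sum_mem, hSsum, ← hσd] at h1
    have h4 : lam / (2 * t) * ∑ y, ((Q y).card : ℝ) ≤ lam / (2 * t) * (n * (t * D)) :=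
      mul_le_mul_of_nonneg_left hQsum (by positivity)
    have h5 : lam / (2 * t) * (n * (t * D)) = lam * n * D / 2 := by field_simp
    linarith
  have hσ0 : 0 ≤ σ := by rw [hσd]; exact Finset.sum_nonneg fun _ _ => by positivity
  -- the number of colours
  obtain ⟨N, hN⟩ : ∃ N : ℕ, N = ⌈4 * (2 * t / lam + 1) * D⌉₊ := ⟨_, rfl⟩
  have hNlow : 4 * (2 * t / lam + 1) * D ≤ N := by rw [hN]; exact Nat.le_ceil _
  have hNpos : (0 : ℝ) < N := lt_of_lt_of_le (by positivity) hNlow
  have hN1 : 1 ≤ N := by exact_mod_cast (by exact_mod_cast hNpos : 0 < N)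
  have hNup : (N : ℝ) * lam ≤ 13 * t * D := by
    have h1 : (N : ℝ) < 4 * (2 * t / lam + 1) * D + 1 := by
      rw [hN]; exact Nat.ceil_lt_add_one (by positivity)
    have h2 : (N : ℝ) * lam ≤ (4 * (2 * t / lam + 1) * D + 1) * lam :=
      mul_le_mul_of_nonneg_right h1.le hl.le
    have h3 : (4 * (2 * t / lam + 1) * D + 1) * lam = 8 * t * D + (4 * D + 1) * lam := by
      field_simp
      ring
    have h4 : (4 * D + 1) * lam ≤ (4 * D + 1) * 1 := mul_le_mul_of_nonneg_left hl1 (by positivity)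
    have h5 : D ≤ t * D := by nlinarith
    nlinarith
  -- the weights
  obtain ⟨g, hg⟩ : ∃ g : V → V → V → ℝ, ∀ a a' y, g a a' y = ind (a ∈ S y) *
      ind (a' ∈ S y ∨ a' ∈ Q y) := ⟨_, fun _ _ _ => rfl⟩
  have hg0 : ∀ a a' y, 0 ≤ g a a' y := fun a a' y => by
    rw [hg]; exact mul_nonneg (ind_nonneg _) (ind_nonneg _)
  obtain ⟨f, hf⟩ := hcol V N (fun a a' => ∑ y ∈ Y, g a a' y) hN1
    (fun a a' => Finset.sum_nonneg fun y _ => hg0 a a' y)
  have htot : ∑ a, ∑ a', (if a ≠ a' then ∑ y ∈ Y, g a a' y else 0) ≤ (N : ℝ) / 4 * σ := by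
    have h1 : ∑ a, ∑ a', (if a ≠ a' then ∑ y ∈ Y, g a a' y else 0) ≤
        ∑ a, ∑ a', ∑ y ∈ Y, g a a' y := by
      refine Finset.sum_le_sum fun a _ => Finset.sum_le_sum fun a' _ => ?_
      split_ifs
      · exact le_refl _
      · exact Finset.sum_nonneg fun y _ => hg0 a a' y
    have h2 : ∑ a, ∑ a', ∑ y ∈ Y, g a a' y = ∑ y ∈ Y, ∑ a, ∑ a', g a a' y := by
      symm
      rw [Finset.sum_comm]
      refine Finset.sum_congr rfl fun a _ => ?_
      rw [Finset.sum_comm]
    have h3 : ∀ y ∈ Y, ∑ a, ∑ a', g a a' y ≤ (N : ℝ) / 4 * ((S y).card : ℝ) := by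
      intro y hy
      simp_rw [hg, ← Finset.mul_sum, ← Finset.sum_mul]
      rw [← card_mem, ← card_ind]
      have h4 : ((univ.filter (fun a' => a' ∈ S y ∨ a' ∈ Q y)).card : ℝ) ≤ (N : ℝ) / 4 := by
        have h5 : univ.filter (fun a' => a' ∈ S y ∨ a' ∈ Q y) ⊆ S y ∪ Q y := by
          intro a ha
          exact mem_union.2 (mem_filter.1 ha).2
        have h6 : ((univ.filter (fun a' => a' ∈ S y ∨ a' ∈ Q y)).card : ℝ) ≤
            ((S y).card : ℝ) + ((Q y).card : ℝ) := by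
          exact_mod_cast (card_le_card h5).trans (card_union_le _ _)
        have h7 : ((Q y).card : ℝ) ≤ 2 * t / lam * D := by
          have := (mY y).1 hy
          rw [div_mul_eq_mul_div, le_div_iff₀ hl]
          linarith
        have := hSD y
        linarith
      rw [mul_comm ((N : ℝ) / 4)]
      exact mul_le_mul_of_nonneg_left h4 (by positivity)
    calc _ ≤ _ := h1
      _ = _ := h2
      _ ≤ ∑ y ∈ Y, (N : ℝ) / 4 * ((S y).card : ℝ) := Finset.sum_le_sum h3
      _ = _ := by rw [← Finset.mul_sum, hσd]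
  have hmono : ∑ a, ∑ a', (if a ≠ a' ∧ f a = f a' then ∑ y ∈ Y, g a a' y else 0) ≤ σ / 4 := by
    have h1 := hf.trans htot
    have h2 : (N : ℝ) / 4 * σ = N * (σ / 4) := by ring
    rw [h2] at h1
    exact le_of_mul_le_mul_left h1 hNpos
  -- the free vertices
  obtain ⟨F, hF⟩ : ∃ F : V → Finset V, ∀ y, F y = (S y).filter
      (fun a => ∀ a', a' ≠ a → (a' ∈ S y ∨ a' ∈ Q y) → f a' ≠ f a) := ⟨_, fun _ => rfl⟩
  have mF : ∀ a y, a ∈ F y ↔ a ∈ S y ∧ ∀ a', a' ≠ a → (a' ∈ S y ∨ a' ∈ Q y) → f a' ≠ f a :=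
    fun a y => by rw [hF, mem_filter]
  have hFS : ∀ y, F y ⊆ S y := fun y a ha => ((mF a y).1 ha).1
  have hSF : ∀ y, ((S y).card : ℝ) - ((F y).card : ℝ) ≤
      ∑ a, ∑ a', ind (a ≠ a' ∧ f a = f a') * g a a' y := by
    intro y
    have h1 : ((S y).card : ℝ) - ((F y).card : ℝ) = ∑ a, (ind (a ∈ S y) - ind (a ∈ F y)) := by
      rw [Finset.sum_sub_distrib, ← card_mem, ← card_mem]
    rw [h1]
    refine Finset.sum_le_sum fun a _ => ?_
    have h0 : ∀ a' ∈ (univ : Finset V), 0 ≤ ind (a ≠ a' ∧ f a = f a') * g a a' y :=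
      fun a' _ => mul_nonneg (ind_nonneg _) (hg0 _ _ _)
    by_cases ha : a ∈ S y
    · by_cases ha' : a ∈ F y
      · rw [ind_true ha, ind_true ha', sub_self]
        exact Finset.sum_nonneg h0
      · rw [ind_true ha, ind_false ha', sub_zero]
        rw [mF] at ha'
        push Not at ha'
        obtain ⟨a', h2, h3, h4⟩ := ha' ha
        refine le_trans ?_ (Finset.single_le_sum h0 (mem_univ a'))
        rw [ind_true ⟨h2.symm, h4.symm⟩, hg, ind_true ha, ind_true h3]
        norm_num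
    · have ha' : a ∉ F y := fun h => ha (hFS y h)
      rw [ind_false ha, ind_false ha', sub_self]
      exact Finset.sum_nonneg h0
  have hFsum : 3 / 4 * σ ≤ ∑ y ∈ Y, ((F y).card : ℝ) := by
    have h1 : σ - ∑ y ∈ Y, ((F y).card : ℝ) ≤
        ∑ y ∈ Y, ∑ a, ∑ a', ind (a ≠ a' ∧ f a = f a') * g a a' y := by
      rw [hσd, ← Finset.sum_sub_distrib]
      exact Finset.sum_le_sum fun y _ => hSF y
    have h2 : ∑ y ∈ Y, ∑ a, ∑ a', ind (a ≠ a' ∧ f a = f a') * g a a' y =
        ∑ a, ∑ a', (if a ≠ a' ∧ f a = f a' then ∑ y ∈ Y, g a a' y else 0) := by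
      rw [Finset.sum_comm]
      refine Finset.sum_congr rfl fun a _ => ?_
      rw [Finset.sum_comm]
      refine Finset.sum_congr rfl fun a' _ => ?_
      rw [← Finset.mul_sum]
      unfold ind
      split_ifs <;> simp
    rw [h2] at h1
    linarith
  -- the sets of one colour
  obtain ⟨U, hU⟩ : ∃ U : Fin N → Finset V, ∀ j, U j = Y.filter (fun y => ∃ a ∈ F y, f a = j) :=
    ⟨_, fun _ => rfl⟩
  have hswap : ∀ h : V → ℝ, ∑ j, ∑ y ∈ U j, h y = ∑ y ∈ Y, ((F y).card : ℝ) * h y := by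
    intro h
    simp_rw [hU, sum_filter_ind]
    rw [Finset.sum_comm]
    refine Finset.sum_congr rfl fun y _ => ?_
    rw [← Finset.sum_mul, ← card_ind]
    congr 2
    have h1 : univ.filter (fun j : Fin N => ∃ a ∈ F y, f a = j) = (F y).image f := by
      ext j
      simp
    rw [h1, Finset.card_image_of_injOn]
    intro a ha a' ha' haa
    by_contra hne
    exact ((mF a y).1 ha).2 a' (Ne.symm hne) (Or.inl (hFS y ha')) haa.symm
  have hUsum : 3 / 8 * (lam * n * D) ≤ ∑ j, ((U j).card : ℝ) := by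
    have h1 : ∑ j, ((U j).card : ℝ) = ∑ y ∈ Y, ((F y).card : ℝ) := by
      have := hswap (fun _ => 1)
      simpa using this
    rw [h1]
    linarith
  have hloc : ∀ j, ∀ y ∈ U j, ((nb G y ∩ U j).card : ℝ) ≤ eta * D + ((nb G y \ L y).card : ℝ) := by
    intro j y hy
    rw [hU, mem_filter] at hy
    obtain ⟨hyY, a, haF, haj⟩ := hy
    have haS := hFS y haF
    have hyE : y ∈ E a := (mS a y).1 haS
    have hsub : nb G y ∩ U j ⊆ (L y \ R a) ∪ (nb G y \ L y) := by
      intro v hv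
      obtain ⟨hv1, hv2⟩ := mem_inter.1 hv
      rw [hU, mem_filter] at hv2
      obtain ⟨-, b, hbF, hbj⟩ := hv2
      have hvb : v ∈ E b := (mS b v).1 (hFS v hbF)
      have hvE : v ∉ E a := fun h => hEi a y hyE v h ((mem_nb).1 hv1)
      have hvR : v ∉ R a := by
        intro h
        have haQ : a ∈ Q v := (mQ a v).2 ⟨h, hvE⟩
        have hab : a ≠ b := by
          rintro rfl
          exact hvE hvb
        exact ((mF b v).1 hbF).2 a hab (Or.inr haQ) (haj.trans hbj.symm)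
      by_cases hvL : v ∈ L y
      · exact mem_union_left _ (mem_sdiff.2 ⟨hvL, hvR⟩)
      · exact mem_union_right _ (mem_sdiff.2 ⟨hv1, hvL⟩)
    have h1 : ((nb G y ∩ U j).card : ℝ) ≤ ((L y \ R a).card : ℝ) + ((nb G y \ L y).card : ℝ) := by
      exact_mod_cast (card_le_card hsub).trans (card_union_le _ _)
    have h2 := hLR a y hyE
    linarith
  have hZ : ∑ j, ∑ y ∈ U j, ((nb G y ∩ U j).card : ℝ) ≤ lam * n * D / 8 * (del * D) := by
    have h1 : ∑ j, ∑ y ∈ U j, ((nb G y ∩ U j).card : ℝ) ≤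
        ∑ j, ∑ y ∈ U j, (eta * D + ((nb G y \ L y).card : ℝ)) :=
      Finset.sum_le_sum fun j _ => Finset.sum_le_sum fun y hy => hloc j y hy
    rw [hswap (fun y => eta * D + ((nb G y \ L y).card : ℝ))] at h1
    have h2 : ∑ y ∈ Y, ((F y).card : ℝ) * (eta * D + ((nb G y \ L y).card : ℝ)) ≤
        ∑ y, D * (eta * D + ((nb G y \ L y).card : ℝ)) := by
      calc _ ≤ ∑ y ∈ Y, D * (eta * D + ((nb G y \ L y).card : ℝ)) := by
            refine Finset.sum_le_sum fun y _ => ?_
            have h3 : ((F y).card : ℝ) ≤ D :=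
              le_trans (by exact_mod_cast card_le_card (hFS y)) (hSD y)
            exact mul_le_mul_of_nonneg_right h3 (by positivity)
        _ ≤ _ := Finset.sum_le_sum_of_subset_of_nonneg (subset_univ _)
            (fun y _ _ => by positivity)
    have h4 : ∑ y, D * (eta * D + ((nb G y \ L y).card : ℝ)) =
        D * (n * (eta * D) + ∑ y, ((nb G y \ L y).card : ℝ)) := by
      rw [← Finset.mul_sum, Finset.sum_add_distrib, Finset.sum_const, card_univ, nsmul_eq_mul, hn]
    have h5 : D * (n * (eta * D) + ∑ y, ((nb G y \ L y).card : ℝ)) ≤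
        D * (n * (eta * D) + lam0 * n * D) :=
      mul_le_mul_of_nonneg_left (by linarith) hD0.le
    have h6 : D * (n * (eta * D) + lam0 * n * D) = (eta + lam0) * (n * D * D) := by ring
    have h7 : (eta + lam0) * (n * D * D) ≤ lam * del / 8 * (n * D * D) :=
      mul_le_mul_of_nonneg_right hsum (by positivity)
    have h8 : lam * del / 8 * (n * D * D) = lam * n * D / 8 * (del * D) := by ring
    linarith
  -- a good colour
  have hdD : 0 < del * D := by positivity
  obtain ⟨j, hj⟩ : ∃ j : Fin N, lam * n * D / 4 ≤ N * (((U j).card : ℝ) -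
      (∑ y ∈ U j, ((nb G y ∩ U j).card : ℝ)) / (del * D)) := by
    by_contra hcon
    push Not at hcon
    have hne : (univ : Finset (Fin N)).Nonempty := ⟨⟨0, hN1⟩, mem_univ _⟩
    have h1 := Finset.sum_lt_sum_of_nonempty hne (fun j _ => hcon j)
    rw [← Finset.mul_sum, Finset.sum_sub_distrib, ← Finset.sum_div, Finset.sum_const, card_univ,
      Fintype.card_fin, nsmul_eq_mul] at h1
    have h2 := lt_of_mul_lt_mul_left h1 hNpos.le
    have h3 : (∑ j, ∑ y ∈ U j, ((nb G y ∩ U j).card : ℝ)) / (del * D) ≤ lam * n * D / 8 := by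
      rw [div_le_iff₀ hdD]
      exact hZ
    linarith
  obtain ⟨Z, hZd⟩ : ∃ Z : ℝ, Z = ∑ y ∈ U j, ((nb G y ∩ U j).card : ℝ) := ⟨_, rfl⟩
  rw [← hZd] at hj
  refine ⟨(U j).filter (fun y => ((nb G y ∩ U j).card : ℝ) ≤ 2 * del * D), ?_, ?_⟩
  · have h1 : ((U j).card : ℝ) - Z / (del * D) ≤
        (((U j).filter (fun y => ((nb G y ∩ U j).card : ℝ) ≤ 2 * del * D)).card : ℝ) := by
      rw [card_ind, hZd, Finset.sum_div, Finset.card_eq_sum_ones]
      push_cast
      rw [← Finset.sum_sub_distrib]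
      refine Finset.sum_le_sum fun y _ => ?_
      by_cases h : ((nb G y ∩ U j).card : ℝ) ≤ 2 * del * D
      · rw [ind_true h]
        have : 0 ≤ ((nb G y ∩ U j).card : ℝ) / (del * D) := by positivity
        linarith
      · rw [ind_false h]
        push Not at h
        have : 1 ≤ ((nb G y ∩ U j).card : ℝ) / (del * D) := by
          rw [le_div_iff₀ hdD]
          nlinarith
        linarith
    obtain ⟨u, hu⟩ : ∃ u : ℝ, u =
      (((U j).filter (fun y => ((nb G y ∩ U j).card : ℝ) ≤ 2 * del * D)).card : ℝ) := ⟨_, rfl⟩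
    rw [← hu] at h1 ⊢
    have hu0 : 0 ≤ u := by rw [hu]; positivity
    have h2 : lam * n * D / 4 ≤ N * u := hj.trans (mul_le_mul_of_nonneg_left h1 hNpos.le)
    have h3 : lam * (lam * n * D / 4) ≤ lam * (N * u) := mul_le_mul_of_nonneg_left h2 hl.le
    have h4 : lam * (N * u) = (N * lam) * u := by ring
    have h5 : (N * lam) * u ≤ 13 * t * D * u := mul_le_mul_of_nonneg_right hNup hu0
    have h6 : D * (lam ^ 2 * n) ≤ D * (52 * t * u) := by nlinarith
    have h7 := le_of_mul_le_mul_left h6 hD0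
    have h8 : 0 ≤ t * u := by positivity
    linarith
  · intro y hy
    refine le_trans ?_ (mem_filter.1 hy).2
    exact_mod_cast card_le_card (inter_subset_inter_left (filter_subset _ _))

end Pool.Agent.U416.NL
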